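import Mathlib
import Pool.Agent.H93.Mei1

set_option autoImplicit false

namespace Pool.Agent.Results.MP_03af15_an.Exact

open Complex Finset Polynomial Pool.Agent.H93.Mei

/-- The basis polynomial e_k. -/
noncomputable def e (a : ℝ) (k : ℕ) : ℝ[X] :=
  C ((ascPochhammer ℝ k).eval a)⁻¹ * descPochhammer ℝ k

/-- The polynomial with coordinates the coefficients of q in the basis e_k. -/
noncomputable def Linv (a : ℝ) (q : ℝ[X]) : ℝ[X] := q.sum fun k c => C c * e a k

/-- The class U_n. -/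
def U (a : ℝ) (n : ℕ) : Set ℝ[X] :=
  {P | P.degree = n ∧ ∃ q : ℝ[X], P = Linv a q ∧
    ∀ w : ℂ, aeval w q = 0 → w.im = 0 ∧ -1 ≤ w.re ∧ w.re ≤ 0}

lemma asc_pos {a : ℝ} (ha : 0 < a) (k : ℕ) : 0 < (ascPochhammer ℝ k).eval a :=
  ascPochhammer_pos k a ha

lemma deg_e {a : ℝ} (ha : 0 < a) (k : ℕ) : (e a k).degree = k := by
  rw [e, degree_C_mul (inv_ne_zero (asc_pos ha k).ne'),
    degree_eq_natDegree (monic_descPochhammer ℝ k).ne_zero, descPochhammer_natDegree]

lemma deg_Linv {a : ℝ} (ha : 0 < a) (q : ℝ[X]) : (Linv a q).degree = q.degree := by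
  by_cases hq : q = 0
  · simp [Linv, hq]
  rw [Linv, sum_over_range _ (by simp), Finset.sum_range_succ, degree_eq_natDegree hq]
  have h1 : (C (q.coeff q.natDegree) * e a q.natDegree).degree = q.natDegree := by
    rw [degree_C_mul (by simpa using hq), deg_e ha]
  rw [degree_add_eq_right_of_degree_lt, h1]
  rw [h1]
  refine lt_of_le_of_lt (degree_sum_le _ _) ?_
  rw [Finset.sup_lt_iff (WithBot.bot_lt_coe _)]
  intro k hk
  refine lt_of_le_of_lt (degree_mul_le _ _) ?_
  rw [deg_e ha]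
  refine lt_of_le_of_lt (add_le_add_left degree_C_le _) ?_
  rw [zero_add]
  exact_mod_cast mem_range.mp hk

/-- The functional sending X^k to e_k(z). -/
noncomputable def Lam (a : ℝ) (z : ℂ) : ℂ[X] →ₗ[ℂ] ℂ :=
  Polynomial.lsum fun k => LinearMap.smulRight LinearMap.id (aeval z (e a k))

lemma Lam_mon (a : ℝ) (z : ℂ) (k : ℕ) (c : ℂ) : Lam a z (monomial k c) = c * aeval z (e a k) := by
  simp [Lam, Polynomial.lsum_apply, sum_monomial_index]

lemma Lam_map (a : ℝ) (z : ℂ) (q : ℝ[X]) :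
    aeval z (Linv a q) = Lam a z (q.map (algebraMap ℝ ℂ)) := by
  induction q using Polynomial.induction_on' with
  | add p q hp hq =>
    rw [Polynomial.map_add, map_add, ← hp, ← hq, ← map_add, Linv, Linv, Linv, sum_add_index]
    · simp
    · intro k b c; rw [C_add, add_mul]
  | monomial k c =>
    rw [Polynomial.map_monomial, Lam_mon, Linv, sum_monomial_index _ _ (by simp)]
    simp

lemma e_succ {a : ℝ} (ha : 0 < a) (z : ℂ) (k : ℕ) :
    (a + k) * aeval z (e a (k + 1)) = (z - k) * aeval z (e a k) := by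
  have h1 := (asc_pos ha k).ne'
  have h2 : (a : ℂ) + k ≠ 0 := by
    have : a + k ≠ 0 := by positivity
    exact_mod_cast this
  have h3 : (((ascPochhammer ℝ k).eval a : ℝ) : ℂ) ≠ 0 := by exact_mod_cast h1
  simp only [e, map_mul, aeval_C, ascPochhammer_succ_eval, descPochhammer_succ_right, map_sub,
    aeval_X, map_natCast, coe_algebraMap]
  push_cast
  field_simp

lemma Lam_id {a : ℝ} (ha : 0 < a) (z : ℂ) (p : ℂ[X]) :
    Lam a z (X * (C (a : ℂ) * p + X * derivative p)) = Lam a z (C z * p - X * derivative p) := by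
  induction p using Polynomial.induction_on' with
  | add p q hp hq =>
    have e1 : X * (C (a : ℂ) * (p + q) + X * derivative (p + q)) =
      X * (C (a : ℂ) * p + X * derivative p) + X * (C (a : ℂ) * q + X * derivative q) := by
      rw [derivative_add]; ring
    have e2 : C z * (p + q) - X * derivative (p + q) =
      (C z * p - X * derivative p) + (C z * q - X * derivative q) := by
      rw [derivative_add]; ring
    rw [e1, e2, map_add, map_add, hp, hq]
  | monomial k c =>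
    have e0 : X * derivative (monomial k c : ℂ[X]) = monomial k (c * k) := by
      rcases k with _ | k
      · simp
      · rw [derivative_monomial_succ, X_mul_monomial]; push_cast; rfl
    rw [e0, C_mul_monomial, C_mul_monomial, ← map_add, ← map_sub, X_mul_monomial, Lam_mon, Lam_mon]
    linear_combination c * e_succ ha z k

lemma Lam_rec {a : ℝ} (ha : 0 < a) (z τ : ℂ) (k : ℕ) :
    z * Lam a z ((X + C τ) ^ k) = (a + k) * Lam a z ((X + C τ) ^ (k + 1)) +
      (k - a * τ - 2 * k * τ) * Lam a z ((X + C τ) ^ k) -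
      k * (τ * (1 - τ)) * Lam a z ((X + C τ) ^ (k - 1)) := by
  have h := Lam_id ha z ((X + C τ) ^ k)
  rw [← sub_eq_zero, ← map_sub] at h
  have e1 : X * (C (a : ℂ) * (X + C τ) ^ k + X * derivative ((X + C τ) ^ k)) -
      (C z * (X + C τ) ^ k - X * derivative ((X + C τ) ^ k)) =
      ((a : ℂ) + k) • (X + C τ) ^ (k + 1) + ((k : ℂ) - a * τ - 2 * k * τ) • (X + C τ) ^ k -
      ((k : ℂ) * (τ * (1 - τ))) • (X + C τ) ^ (k - 1) - z • (X + C τ) ^ k := by
    rw [derivative_X_add_C_pow]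
    simp only [smul_eq_C_mul, map_add, map_sub, map_mul, map_natCast, map_one, map_ofNat]
    rcases k with _ | k
    · simp; ring
    · simp only [Nat.add_sub_cancel]; ring
  rw [e1] at h
  simp only [map_add, map_sub, map_smul, smul_eq_mul] at h
  linear_combination -h

lemma Lam_one (a : ℝ) (z : ℂ) : Lam a z 1 = 1 := by
  rw [← monomial_zero_one, Lam_mon]; simp [e]

lemma Lam_cont (a : ℝ) (z : ℂ) (n : ℕ) : Continuous fun τ : ℂ => Lam a z ((X + C τ) ^ n) := by
  have : (fun τ : ℂ => Lam a z ((X + C τ) ^ n)) =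
      fun τ => ∑ m ∈ range (n + 1), (τ ^ (n - m) * n.choose m) * Lam a z (X ^ m) := by
    funext τ
    rw [add_pow, map_sum]
    refine Finset.sum_congr rfl fun m _ => ?_
    rw [← smul_eq_mul (τ ^ (n - m) * n.choose m), ← map_smul, smul_eq_C_mul]
    congr 1
    simp only [map_mul, map_pow, map_natCast]; ring
  rw [this]; fun_prop

lemma upper {a : ℝ} (ha : 0 < a) (z : ℂ) (hz : 0 ≤ z.im) (n : ℕ) (t : Fin n → ℂ)
    (ht : ∀ i, (t i).im = 0 ∧ 0 ≤ (t i).re ∧ (t i).re ≤ 1)
    (h : Lam a z (∏ i, (X + C (t i))) = 0) : ‖z + a / 2‖ ≤ n - 1 + a / 2 := by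
  by_contra hlt
  have hd : ∀ τ : ℂ, 0 ≤ τ.im → (τ.im = 0 → 0 ≤ τ.re ∧ τ.re ≤ 1) →
      Lam a z ((X + C τ) ^ n) ≠ 0 := fun τ h1 h2 h3 =>
    hlt (diag ha z τ (fun k => Lam a z ((X + C τ) ^ k)) n (by simp [Lam_one]) h3
      (Lam_rec ha z τ) hz h1 h2)
  have hK : IsCompact ((fun x : ℝ => (x : ℂ)) '' Set.Icc 0 1) :=
    isCompact_Icc.image continuous_ofReal
  have hO : IsOpen {τ : ℂ | Lam a z ((X + C τ) ^ n) ≠ 0} :=
    isOpen_ne_fun (Lam_cont a z n) continuous_const
  obtain ⟨δ, hδ, hsub⟩ := hK.exists_thickening_subset_open hO (by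
    rintro _ ⟨x, hx, rfl⟩
    exact hd x (by simp) (fun _ => by simpa using hx))
  set H := 1 / δ with hH
  have hHδ : H * δ = 1 := by rw [hH]; field_simp
  have H0 : 0 < H := by positivity
  set c0 : ℂ := ⟨1 / 2, H⟩ with hc0
  set ρ := Real.sqrt (1 / 4 + H ^ 2) with hρ
  have nle : ∀ w : ℂ, ‖w‖ ≤ ρ ↔ w.re ^ 2 + w.im ^ 2 ≤ 1 / 4 + H ^ 2 := fun w => by
    rw [hρ, Real.le_sqrt (norm_nonneg _) (by positivity), Complex.sq_norm, normSq_apply, sq w.re, sq w.im]
  have key := Pool.Agent.H48.Borcea.gws (X + C c0) (1 : ℂ[X]) ρ (fun i => t i - c0) univ (Lam a z)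
    (fun j _ => by
      obtain ⟨h1, h2, h3⟩ := ht j
      rw [nle]
      simp only [sub_re, sub_im, hc0, h1]
      nlinarith)
    (Real.sqrt_nonneg _) (fun w hw => by
      rw [nle] at hw
      have e1 : X + C c0 + w • (1 : ℂ[X]) = X + C (c0 + w) := by
        rw [smul_eq_C_mul, mul_one, C_add, add_assoc]
      rw [e1, card_univ, Fintype.card_fin]
      have r1 : (c0 + w).re = 1 / 2 + w.re := by simp [hc0]
      have r2 : (c0 + w).im = H + w.im := by simp [hc0]
      by_cases hi : 0 ≤ (c0 + w).im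
      · refine hd _ hi fun h0 => ?_
        rw [r2] at h0
        have : w.im = -H := by linarith
        rw [this] at hw
        rw [r1]; constructor <;> nlinarith
      · refine hsub (Metric.mem_thickening_iff.mpr ⟨((c0 + w).re : ℂ), ⟨_, ?_, rfl⟩, ?_⟩)
        · rw [r2] at hi
          rw [r1]; constructor <;> nlinarith
        · rw [dist_eq_norm]
          have : c0 + w - ((c0 + w).re : ℂ) = ((c0 + w).im : ℂ) * I := by
            conv_lhs => rw [← re_add_im (c0 + w)]
            simp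
          rw [this, norm_mul, norm_I, mul_one, Complex.norm_real, Real.norm_eq_abs,
            abs_of_neg (not_le.mp hi), r2]
          rw [r2] at hi
          by_contra h5
          nlinarith [sq_nonneg w.re, sq_nonneg (H + w.im)])
  refine key ?_
  rw [← h]
  congr 1
  refine Finset.prod_congr rfl fun i _ => ?_
  rw [smul_eq_C_mul, mul_one, C_sub]; ring

lemma disc {a : ℝ} (ha : 0 < a) (n : ℕ) (P : ℝ[X]) (hP : P ∈ U a n) (z : ℂ)
    (hz : aeval z P = 0) : ‖z + a / 2‖ ≤ n - 1 + a / 2 := by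
  wlog hi : 0 ≤ z.im generalizing z
  · have h1 := this ((starRingEnd ℂ) z) (by rw [aeval_conj, hz, map_zero])
      (by rw [conj_im]; linarith)
    rw [← RCLike.norm_conj] at h1
    simpa [map_ofNat] using h1
  obtain ⟨hdeg, q, rfl, hq⟩ := hP
  rw [deg_Linv ha] at hdeg
  have hq0 : q ≠ 0 := by rintro rfl; simp at hdeg
  set Q := q.map (algebraMap ℝ ℂ) with hQ
  have hQ0 : Q ≠ 0 := Polynomial.map_ne_zero hq0
  have hn : Q.natDegree = n := by
    rw [hQ, natDegree_map]; exact natDegree_eq_of_degree_eq_some hdeg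
  obtain ⟨r, hr⟩ := Pool.Agent.H48.Borcea.exists_fact Q
  rw [Lam_map, ← hQ, hr, ← smul_eq_C_mul, map_smul, smul_eq_mul,
    mul_eq_zero_iff_left (leadingCoeff_ne_zero.mpr hQ0)] at hz
  rw [← hn]
  refine upper ha z hi _ (fun i => -r i) (fun i => ?_) (by simpa [sub_eq_add_neg] using hz)
  have := hq (r i) (by
    rw [aeval_def, eval₂_eq_eval_map, ← hQ, hr, eval_mul, eval_prod,
      Finset.prod_eq_zero (mem_univ i) (by simp), mul_zero])
  simp only [neg_im, neg_re]
  refine ⟨by linarith [this.1], by linarith [this.2.2], by linarith [this.2.1]⟩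

theorem result (a : ℝ) (ha : 0 < a) (n : ℕ) (hn : 1 ≤ n) :
    IsGreatest {r : ℝ | ∃ P ∈ U a n, ∃ z : ℂ, aeval z P = 0 ∧ r = ‖z‖} (a + n - 1) ∧
    ∀ P ∈ U a n, ∀ z : ℂ, aeval z P = 0 → ‖z + a / 2‖ ≤ n - 1 + a / 2 := by
  refine ⟨⟨⟨Linv a ((X + C 1) ^ n), ⟨?_, _, rfl, fun w hw => ?_⟩, -((a + n - 1 : ℝ) : ℂ), ?_, ?_⟩,
    ?_⟩, disc ha n⟩
  · rw [deg_Linv ha, degree_pow, degree_X_add_C]; simp
  · rw [map_pow, pow_eq_zero_iff (by omega)] at hw
    have : w = -1 := by
      simp only [map_add, aeval_X, map_one] at hw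
      linear_combination hw
    rw [this]; simp
  · obtain ⟨m, rfl⟩ : ∃ m, n = m + 1 := ⟨n - 1, by omega⟩
    have h := Lam_rec ha (-((a + (m + 1 : ℕ) - 1 : ℝ) : ℂ)) 1 m
    have h2 : (a : ℂ) + m ≠ 0 := by
      have : a + m ≠ 0 := by positivity
      exact_mod_cast this
    rw [Lam_map, Polynomial.map_pow, Polynomial.map_add, map_X, map_C, map_one]
    refine (mul_eq_zero_iff_left h2).mp ?_
    generalize Lam a (-((a + (m + 1 : ℕ) - 1 : ℝ) : ℂ)) = L at h ⊢
    push_cast at h
    linear_combination -h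
  · have : (1 : ℝ) ≤ n := by exact_mod_cast hn
    rw [norm_neg, Complex.norm_real, Real.norm_eq_abs, abs_of_nonneg (by linarith)]
  · rintro r ⟨P, hP, z, hz, rfl⟩
    have h1 := disc ha n P hP z hz
    have h2 := norm_sub_le (z + a / 2) (a / 2)
    have h3 : ‖(a : ℂ) / 2‖ = a / 2 := by
      rw [norm_div, Complex.norm_real, Real.norm_eq_abs, abs_of_pos ha]; simp
    rw [add_sub_cancel_right, h3] at h2
    linarith

end Pool.Agent.Results.MP_03af15_an.Exact
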